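import Pool.Agent.helper18.HG.Spec

set_option autoImplicit false

namespace Pool.Agent.helper18.HG

open Finset

theorem REC_key (c : ℕ → ℤ) (a P : Polynomial ℤ)
    (hP : (a : PowerSeries ℤ) * PowerSeries.mk c = (P : PowerSeries ℤ)) (n : ℕ)
    (h1 : a.natDegree ≤ n) (h2 : P.natDegree < n) :
    ∑ i ∈ range (a.natDegree + 1), a.coeff i * c (n - i) = 0 := by
  have h := congrArg (PowerSeries.coeff n) hP
  rw [PowerSeries.coeff_mul, Polynomial.coeff_coe, Polynomial.coeff_eq_zero_of_natDegree_lt h2,
    Finset.Nat.sum_antidiagonal_eq_sum_range_succ_mk] at h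
  rw [← h]
  have hs : range (a.natDegree + 1) ⊆ range n.succ := by
    intro i hi
    rw [mem_range] at hi ⊢
    omega
  rw [← Finset.sum_subset hs]
  · refine Finset.sum_congr rfl fun i _ => ?_
    rw [Polynomial.coeff_coe, PowerSeries.coeff_mk]
  · intro i _ hi2
    rw [mem_range, not_lt] at hi2
    have h0 : a.coeff i = 0 := Polynomial.coeff_eq_zero_of_natDegree_lt (by omega)
    simp [h0]

theorem REC_ind (c : ℕ → ℤ) (a P : Polynomial ℤ) (ha : a ≠ 0)
    (hP : (a : PowerSeries ℤ) * PowerSeries.mk c = (P : PowerSeries ℤ)) (x y d : ℕ)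
    (hx : P.natDegree < x) (hy : P.natDegree < y) (hd : a.natDegree = a.natTrailingDegree + d)
    (h : ∀ j < d, c (x + j) = c (y + j)) : ∀ j, c (x + j) = c (y + j) := by
  intro j
  induction j using Nat.strong_induction_on with
  | _ j ih =>
    rcases lt_or_ge j d with hj | hj
    · exact h j hj
    · obtain ⟨t, rfl⟩ := Nat.exists_eq_add_of_le hj
      have e1 := REC_key c a P hP (x + t + a.natDegree) (by omega) (by omega)
      have e2 := REC_key c a P hP (y + t + a.natDegree) (by omega) (by omega)
      have e3 : ∑ i ∈ range (a.natDegree + 1), a.coeff i *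
          (c (x + t + a.natDegree - i) - c (y + t + a.natDegree - i)) = 0 := by
        simp only [mul_sub, Finset.sum_sub_distrib]
        rw [e1, e2, sub_zero]
      rw [Finset.sum_eq_single a.natTrailingDegree] at e3
      · have hν : a.coeff a.natTrailingDegree ≠ 0 := by
          have := Polynomial.trailingCoeff_nonzero_iff_nonzero.2 ha
          exact this
        rcases mul_eq_zero.1 e3 with h0 | h0
        · exact absurd h0 hν
        · have i1 : x + t + a.natDegree - a.natTrailingDegree = x + (d + t) := by omega
          have i2 : y + t + a.natDegree - a.natTrailingDegree = y + (d + t) := by omega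
          rw [i1, i2] at h0
          linarith
      · intro i hi hne
        rw [mem_range] at hi
        rcases lt_or_gt_of_ne hne with hlt | hgt
        · rw [Polynomial.coeff_eq_zero_of_lt_natTrailingDegree hlt, zero_mul]
        · have i1 : x + t + a.natDegree - i = x + (t + a.natDegree - i) := by omega
          have i2 : y + t + a.natDegree - i = y + (t + a.natDegree - i) := by omega
          rw [i1, i2, ih (t + a.natDegree - i) (by omega), sub_self, mul_zero]
      · intro hn
        exact absurd (mem_range.2 (by omega)) hn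

theorem REC : REC_stmt := by
  intro c M a P hM ha hP
  have hle : a.natTrailingDegree ≤ a.natDegree := Polynomial.natTrailingDegree_le_natDegree a
  obtain ⟨d, hd⟩ := Nat.exists_eq_add_of_le hle
  have hfin : {f : Fin d → ℤ | ∀ i, f i ∈ Set.Icc (-M) M}.Finite :=
    Set.Finite.pi' fun _ => Set.finite_Icc _ _
  have hmaps : Set.MapsTo (fun m : ℕ => fun i : Fin d => c (m + i.val)) (Set.Ici (P.natDegree + 1))
      {f : Fin d → ℤ | ∀ i, f i ∈ Set.Icc (-M) M} := by
    intro m _ i
    exact abs_le.1 (hM _)
  obtain ⟨x, hx, y, hy, hxy, he⟩ :=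
    (Set.Ici_infinite (P.natDegree + 1)).exists_ne_map_eq_of_mapsTo hmaps hfin
  have hx' : P.natDegree < x := hx
  have hy' : P.natDegree < y := hy
  have hst : ∀ j < d, c (x + j) = c (y + j) := fun j hj => congrFun he ⟨j, hj⟩
  have hall := REC_ind c a P ha hP x y d hx' hy' hd hst
  rcases lt_or_gt_of_ne hxy with h | h
  · refine ⟨x, y - x, by omega, fun n hn => ?_⟩
    have h1 := hall (n - x)
    rw [show x + (n - x) = n by omega, show y + (n - x) = n + (y - x) by omega] at h1
    exact h1.symm
  · refine ⟨y, x - y, by omega, fun n hn => ?_⟩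
    have h1 := hall (n - y)
    rw [show y + (n - y) = n by omega, show x + (n - y) = n + (x - y) by omega] at h1
    exact h1

end Pool.Agent.helper18.HG
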